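import Pool.Agent.N207.AX.Conj
import Pool.Agent.N207.AX.Exp
import Pool.Agent.N227.CF.Low
import Pool.Agent.N878.AX.LINE
import Pool.Agent.N301.AX.IND
import Pool.Agent.N945.AX.ELL

/-!
# Logarithms of all conjugates of the values of algebraic functions of several variables

Let `K` be a number field and `α_1, …, α_n` algebraic functions on a variety over `K` with coordinates in the affine
space `A ^ X`, multiplicatively independent modulo constants. For a point `s` with coordinates in `K` we consider the
`n [K : ℚ]` logarithms of all conjugates `φ(α_i(s))`, `φ` running through the embeddings of `K`. The conjecture on the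
algebraic independence of logarithms says that they are algebraically independent if they are linearly independent over
the rational numbers. We show that they satisfy no relation of growing degree and height, for 100 percent of the points
`s` with given denominators.
-/

set_option autoImplicit false

open Filter NumberField

namespace Pool.Agent.Results.MP_60829e_nt.ConjugateLogarithms

/-- Logarithms `l_1, …, l_n` of algebraic functions of several variables, multiplicatively independent modulo constants,
on a connected nonempty open set -/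
structure Logarithms {X : Type} [Fintype X] {n : ℕ} (U : Set (X → ℂ)) (l : Fin n → (X → ℂ) → ℂ) : Prop where
  isOpen : IsOpen U
  isPreconnected : IsPreconnected U
  nonempty : U.Nonempty
  analytic : ∀ i, AnalyticOnNhd ℂ (l i) U
  /-- the functions `exp(l_i)` satisfy polynomial equations over the polynomials in the coordinates -/
  algebraic : ∀ i, ∃ Q : Polynomial (MvPolynomial X ℂ), Q ≠ 0 ∧
    ∀ z ∈ U, Q.eval₂ (MvPolynomial.eval z) (Complex.exp (l i z)) = 0
  /-- no nontrivial combination with integral coefficients of the `l_i` is constant -/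
  independent : ∀ (m : Fin n → ℤ) (b : ℂ), (∀ z ∈ U, ∑ i, (m i : ℂ) * l i z = b) → m = 0

/-- the points of norm at most `k` at distance at least `1 / k` from the complement of `U` -/
def Inner {X : Type} [Fintype X] (U : Set (X → ℂ)) (k : ℕ) : Set (X → ℂ) := {z | ‖z‖ ≤ k ∧ Metric.ball z (k : ℝ)⁻¹ ⊆ U}

/-- the points with integral coordinates in `K` all of whose conjugates are at most `T` in absolute value -/
def Points (K X : Type) [Field K] [NumberField K] (T : ℝ) : Set (X → 𝓞 K) := {a | ∀ j, house (a j : K) ≤ T}

variable {K X : Type} [Field K] [NumberField K] [Fintype X] {n : ℕ}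

/-- **The exceptional points**: `s` in `K ^ X`, all of whose conjugates `φ s` are in the compact sets `Inner (U φ) k`,
such that some nonzero polynomial `R` in `n [K : ℚ]` variables, of partial degrees at most `k`, whose coefficients are
combinations `∑ ξ i * c i` with integers `c i` of `L` all of whose conjugates are at most `T ^ k`, vanishes at the
numbers `l φ i (φ s)` -/
def Exceptional (U : (K →+* ℂ) → Set (X → ℂ)) (l : (K →+* ℂ) → Fin n → (X → ℂ) → ℂ) (L : Type) [Field L]
    [NumberField L] (io : L →+* ℂ) (k : ℕ) (ξ : Fin k → ℂ) (T : ℝ) : Set (X → K) :=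
  {s | (∀ φ : K →+* ℂ, (fun j => φ (s j)) ∈ Inner (U φ) k) ∧
    ∃ R : MvPolynomial ((K →+* ℂ) × Fin n) ℂ, R ≠ 0 ∧ (∀ y, R.degreeOf y ≤ k) ∧
    (∀ m, ∃ c : Fin k → 𝓞 L, (∀ i (φ : L →+* ℂ), ‖φ (c i : L)‖ ≤ T ^ (k : ℝ)) ∧
      R.coeff m = ∑ i, ξ i * io (c i : L)) ∧
    MvPolynomial.eval (fun q => l q.1 q.2 fun j => q.1 (s j)) R = 0}

/-- **The logarithms of all conjugates at almost all points.** Let `K` be a number field and let, for every complex
embedding `φ` of `K`, `l φ 1, …, l φ n` be logarithms of algebraic functions of several variables on `U φ`,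
multiplicatively independent modulo constants.

There are `ω → ∞` and `C` such that for all large `T`, all number fields `L` of degree at most `ω T`, with an embedding
in the complex numbers such that `L` contains all conjugates of `K`, all complex numbers `ξ i`, `i < ω T`, and all
integral points `b` of `K` of house at most `T` with nonzero coordinates, the proportion of the integral points `a` of
`K` of house at most `T` such that `a / b` is exceptional is at most `C T ^ (-1 + 2 / ω T)`. So for 100 percent of the
points `s = a / b` the `n [K : ℚ]` logarithms `l φ i (φ s)` have no nonzero polynomial relation of growing degree and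
height, relative to arbitrary constants. -/
theorem result (K X : Type) [Field K] [NumberField K] [Fintype X] [DecidableEq X] [Nonempty X] (n : ℕ)
    (U : (K →+* ℂ) → Set (X → ℂ)) (l : (K →+* ℂ) → Fin n → (X → ℂ) → ℂ) (h : ∀ φ, Logarithms (U φ) (l φ)) :
    ∃ (ω : ℝ → ℕ) (C T₀ : ℝ), Tendsto ω atTop atTop ∧ Monotone ω ∧ ∀ T, T₀ ≤ T → 0 < ω T ∧
      (Points K X T).Finite ∧ (Points K X T).Nonempty ∧
      ∀ (L : Type) [Field L] [NumberField L], Module.finrank ℚ L ≤ ω T → ∀ io : L →+* ℂ,
        (∀ φ : K →+* ℂ, ∃ φ' : K →+* L, io.comp φ' = φ) →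
        ∀ (ξ : Fin (ω T) → ℂ), ∀ b ∈ Points K X T, (∀ j, b j ≠ 0) →
          ({a ∈ Points K X T | (fun j => (a j : K) / (b j : K)) ∈ Exceptional U l L io (ω T) ξ T}.ncard : ℝ) ≤
            C * T ^ (-1 + 2 / (ω T : ℝ)) * (Points K X T).ncard := by
  classical
  have hI : ∀ φ : K →+* ℂ, N207.AX.Ind (U φ) (l φ) := by
    intro φ
    obtain ⟨e, he, hI⟩ := N207.AX.exp_ind (N945.AX.ell (N301.AX.ind N878.AX.line)) (h φ).isOpen (h φ).isPreconnected (h φ).nonempty (h φ).analytic
      (h φ).independent
    refine N207.AX.exch (f := fun y z => Sum.elim (fun k => l φ k z) (fun k => Complex.exp (l φ k z)) y)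
      (b := Sum.inl) he hI fun i => ?_
    rcases i with i | i
    · exact Or.inl ⟨i, rfl⟩
    · exact Or.inr ((h φ).algebraic i)
  obtain ⟨c, C₁, hc, hC₁, hlow⟩ := N227.CF.low K X
  obtain ⟨ω, C, T₀, hC, h1, h2, h3⟩ := N207.AX.conj_ind (fun φ => (h φ).isPreconnected)
    (fun φ => (h φ).isOpen) (fun φ => (h φ).nonempty) (fun φ => (h φ).analytic) hI
  refine ⟨ω, C / c, max T₀ 1, h1, h2, fun T hT => ⟨(h3 T ((le_max_left _ _).trans hT)).1, ?_, ?_, ?_⟩⟩
  · exact (hlow T ((le_max_right _ _).trans hT)).1
  · refine ⟨0, fun j => ?_⟩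
    have h5 : ((0 : X → 𝓞 K) j : K) = 0 := by simp
    have h6 : house (0 : K) = 0 := by simp [house]
    rw [h5, h6]
    exact zero_le_one.trans ((le_max_right _ _).trans hT)
  · intro L _ _ hL io hemb ξ b hb hb0
    have hT1 : 1 ≤ T := (le_max_right _ _).trans hT
    have hTp : 0 < T := by linarith
    obtain ⟨-, h4⟩ := (h3 T ((le_max_left _ _).trans hT)).2 L hL io hemb ξ b (fun j => ⟨hb0 j, hb j⟩)
    obtain ⟨-, h5, -⟩ := hlow T hT1
    have h6 : ({a ∈ Points K X T | (fun j => (a j : K) / (b j : K)) ∈ Exceptional U l L io (ω T) ξ T}.ncard : ℝ) ≤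
        C * T ^ ((Module.finrank ℚ K * Fintype.card X : ℝ) - 1 + 2 * ((ω T : ℝ)⁻¹)) := h4
    refine h6.trans ?_
    have h7 : (T : ℝ) ^ ((Module.finrank ℚ K * Fintype.card X : ℝ) - 1 + 2 * ((ω T : ℝ)⁻¹)) =
        T ^ (-1 + 2 / (ω T : ℝ)) * T ^ (Module.finrank ℚ K * Fintype.card X) := by
      rw [← Real.rpow_natCast T (Module.finrank ℚ K * Fintype.card X), ← Real.rpow_add hTp]
      congr 1
      push_cast
      ring
    rw [h7]
    have h8 : T ^ (Module.finrank ℚ K * Fintype.card X) ≤ ((Points K X T).ncard : ℝ) / c := by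
      rw [le_div_iff₀ hc, mul_comm]
      exact h5
    calc C * (T ^ (-1 + 2 / (ω T : ℝ)) * T ^ (Module.finrank ℚ K * Fintype.card X)) ≤
          C * (T ^ (-1 + 2 / (ω T : ℝ)) * (((Points K X T).ncard : ℝ) / c)) :=
          mul_le_mul_of_nonneg_left (mul_le_mul_of_nonneg_left h8 (by positivity)) hC
      _ = _ := by ring

end Pool.Agent.Results.MP_60829e_nt.ConjugateLogarithms
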