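import Pool.Agent.N770.Logs

/-!
# Linear forms in logarithms which are algebraically dependent, in bounded degree, with a fixed
number

Let `λ_1, ..., λ_n` be logarithms of algebraic numbers, let `v` be any transcendental complex number
(for example one of the `λ_i`, or `e`) and let `D` be a natural number. We consider the linear forms
`u` in `1, λ_1, ..., λ_n` with algebraic coefficients for which some nonzero polynomial `P` over
`ℚ̄` of total degree at most `D` vanishes at `(u, v)`. We prove that they lie in finitely many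
subspaces `W` with `⌊(dim W) ^ 2 / 4⌋ ≤ D`; each `W` contains `1`, and contains `v` if `v` is such a
linear form. By the theorem of Baker, `W` contains at most `dim W - 1` logarithms of algebraic
numbers which are linearly independent over `ℚ`. For example, for `D = 3` and `v = λ_1` the
exceptional logarithms lie in finitely many planes (over `ℚ`) which contain `λ_1`.

The proof. One may assume that `V = ⟨1, λ_1, ..., λ_n⟩` has `⌊(dim V) ^ 2 / 4⌋ > D`, and has to show
that the exceptional `u` lie in finitely many proper subspaces of `V`. If some element of `V` is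
transcendental over `ℚ̄(v)`, then the elements algebraic over `ℚ̄(v)` form such a subspace.
Otherwise `ℚ̄(v, V)` is a finite extension of `ℚ̄(v)`, with finitely many intermediate fields, and
has finitely many points at infinity for the space `⟨V, v⟩` (`Pts2`). If `u` lies outside the
subspaces cut out by the intermediate fields and by these points, then `ℚ̄(u, v)` contains `V`, and
for almost all constants `t` the function `g = u + t v` bounds all elements of `V` (`Pts`,
`Pts2`). As `[ℚ̄(u, v) : ℚ̄(g)] ≤ D` (`Deg`), we get `dim V ^ m ≤ D m + 1` for all `m`. But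
`dim V ^ (m + 1) ≥ dim V ^ m + ⌊(dim V) ^ 2 / 4⌋` by the hyperplane theorem, which is proved by the
method of the linear subgroup theorem.
-/

set_option autoImplicit false

namespace Pool.Agent.Results.MP_60829e_nt.DependentWithFixedNumber

/-- `u` and `v` satisfy a nonzero polynomial relation, with algebraic coefficients, of total degree
at most `D` -/
def Dependent (D : ℕ) (u v : ℂ) : Prop :=
  ∃ P : MvPolynomial (Fin 2) (algebraicClosure ℚ ℂ), P ≠ 0 ∧ P.totalDegree ≤ D ∧
    MvPolynomial.aeval ![u, v] P = 0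

/-- The linear combinations of `1` and the `l i` with algebraic coefficients. -/
noncomputable def Forms {n : ℕ} (l : Fin n → ℂ) : Submodule (algebraicClosure ℚ ℂ) ℂ :=
  Submodule.span (algebraicClosure ℚ ℂ) ({1} ∪ Set.range l)

/-- **Main result.** -/
theorem result (n : ℕ) (l : Fin n → ℂ) (halg : ∀ i, IsAlgebraic ℚ (Complex.exp (l i)))
    (v : ℂ) (hv : Transcendental ℚ v) (D : ℕ) :
    ∃ 𝒲 : Set (Submodule (algebraicClosure ℚ ℂ) ℂ), 𝒲.Finite ∧
      (∀ W ∈ 𝒲, W ≤ Forms l ∧ 1 ∈ W ∧ (v ∈ Forms l → v ∈ W) ∧
        Module.finrank (algebraicClosure ℚ ℂ) W ^ 2 / 4 ≤ D ∧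
        ∀ (r : ℕ) (y : Fin r → ℂ), (∀ i, y i ∈ W) → (∀ i, IsAlgebraic ℚ (Complex.exp (y i))) →
          LinearIndependent ℚ y → (r + 1) ^ 2 / 4 ≤ D) ∧
      ∀ u ∈ Forms l, Dependent D u v → ∃ W ∈ 𝒲, u ∈ W := by
  classical
  have hac : IsAlgClosed (algebraicClosure ℚ ℂ) := Pool.Agent.N770.isAlgClosed_QB
  have halgc : Algebra.IsAlgebraic ℚ (algebraicClosure ℚ ℂ) := algebraicClosure.isAlgebraic ℚ ℂ
  have hv' : Transcendental (algebraicClosure ℚ ℂ) v := by
    intro h
    exact hv (h.restrictScalars ℚ)
  have hfd : FiniteDimensional (algebraicClosure ℚ ℂ) (Forms l) :=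
    FiniteDimensional.span_of_finite _ ((Set.finite_singleton _).union (Set.finite_range l))
  have h1 : (1 : ℂ) ∈ Forms l := Submodule.subset_span (Or.inl rfl)
  have hle : Forms l ≤ Pool.Agent.H301R2.SSE.Lt := by
    rw [Forms, Submodule.span_le]
    rintro x (hx | ⟨i, rfl⟩)
    · rw [Set.mem_singleton_iff] at hx
      rw [hx]
      exact Pool.Agent.H301R2.SSE.Lt_one
    · exact Pool.Agent.H301R2.SSE.Lt_log (halg i)
  obtain ⟨𝒲, h𝒲f, h𝒲, hcov⟩ := Pool.Agent.N770.cover (K := algebraicClosure ℚ ℂ)
    Pool.Agent.H301R2.SSE.Lt Pool.Agent.N770.grows_Lt v hv' D _ (Forms l) hfd hle h1 rfl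
  refine ⟨𝒲, h𝒲f, ?_, hcov⟩
  intro W hW
  obtain ⟨h2, h3, h4, h5⟩ := h𝒲 W hW
  refine ⟨h2, h3, h4, h5, ?_⟩
  intro r y hyW hy hyli
  have hWfd : FiniteDimensional (algebraicClosure ℚ ℂ) W := Submodule.finiteDimensional_of_le h2
  refine le_trans ?_ h5
  apply Nat.div_le_div_right
  apply Nat.pow_le_pow_left
  have hcons := Pool.Agent.N770.li_cons y hy hyli
  have hmem : ∀ i, (Fin.cons 1 y : Fin (r + 1) → ℂ) i ∈ W := by
    intro i
    refine Fin.cases ?_ (fun i => ?_) i
    · exact h3
    · rw [Fin.cons_succ]
      exact hyW i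
  have h6 : LinearIndependent (algebraicClosure ℚ ℂ) (fun i => (⟨_, hmem i⟩ : W)) :=
    LinearIndependent.of_comp W.subtype hcons
  have h7 := h6.fintype_card_le_finrank
  rwa [Fintype.card_fin] at h7

end Pool.Agent.Results.MP_60829e_nt.DependentWithFixedNumber
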