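import Pool.Agent.N770.Six

/-!
# Quadratic relations between two linear forms in given logarithms: finitely many planes

Let `λ_1, ..., λ_n` be logarithms of algebraic numbers and let `V` be the space of the linear forms
`u = b_0 + b_1 λ_1 + ... + b_n λ_n` with algebraic coefficients. If `1, u, v` are linearly
independent over the algebraic numbers (for example, by the theorem of Baker, if `u` and `v` are
logarithms of algebraic numbers which are linearly independent over `ℚ`), then `u` and `v` should be
algebraically independent. We prove that the space `⟨1, u, v⟩` belongs to a finite set if `u` and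
`v` satisfy some nonzero polynomial relation of degree at most two over the algebraic numbers.

The proof. The conic through `(u, v)` has one or two points at infinity, so that
`⟨1, u, v⟩ = ⟨1, y, y ^ 2⟩` or `⟨1, u, v⟩ = ⟨1, y, 1 / y⟩` (`Conic`).

* The set `Q` of all `y ∈ V` with `y ^ 2 ∈ V` contains with `y` the plane `⟨1, y⟩`. By the strong
  six exponentials theorem all `x ∈ V` with `y x ∈ V` lie in `⟨1, y⟩`. Thus this plane is the
  tangent space of `Q` at `y`, hence a component of `Q`, and there are finitely many of them (`Par`).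
* The algebra generated by `V` has a homomorphism `χ` to the algebraic numbers. The algebraic set of
  all `u ∈ V` with `1 / u ∈ V` and `χ(u) = 1` has no point at infinity: at such a point the leading
  coefficients `u₀, w₀ ∈ V` of `u` and `w = 1 / u` would be nonzero with `u₀ w₀ = 0`. Hence this set
  is finite (`Hyp`, with `Pts` and a generic point from `Gen`).
-/

set_option autoImplicit false

namespace Pool.Agent.Results.MP_60829e_nt.FinitelyManyQuadraticPlanes

/-- The linear combinations of `1` and the `l i` with algebraic coefficients. -/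
noncomputable def Forms {n : ℕ} (l : Fin n → ℂ) : Submodule (algebraicClosure ℚ ℂ) ℂ :=
  Submodule.span (algebraicClosure ℚ ℂ) ({1} ∪ Set.range l)

/-- `u` and `v` satisfy a nonzero polynomial relation, with algebraic coefficients, of total degree
at most two -/
def QuadraticRelation (u v : ℂ) : Prop :=
  ∃ c : Fin 6 → algebraicClosure ℚ ℂ, c ≠ 0 ∧
    (c 0 : ℂ) * u ^ 2 + (c 1 : ℂ) * (u * v) + (c 2 : ℂ) * v ^ 2 + (c 3 : ℂ) * u + (c 4 : ℂ) * v +
      (c 5 : ℂ) = 0

/-- **Main result.** -/
theorem result (n : ℕ) (l : Fin n → ℂ) (halg : ∀ i, IsAlgebraic ℚ (Complex.exp (l i))) :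
    {T : Submodule (algebraicClosure ℚ ℂ) ℂ | ∃ u ∈ Forms l, ∃ v ∈ Forms l,
      LinearIndependent (algebraicClosure ℚ ℂ) ![1, u, v] ∧ QuadraticRelation u v ∧
        T = Submodule.span (algebraicClosure ℚ ℂ) {1, u, v}}.Finite := by
  have hfd : FiniteDimensional (algebraicClosure ℚ ℂ) (Forms l) :=
    FiniteDimensional.span_of_finite _ ((Set.finite_singleton _).union (Set.finite_range l))
  have h1 : (1 : ℂ) ∈ Forms l := Submodule.subset_span (Or.inl rfl)
  have hle : Forms l ≤ Pool.Agent.H301R2.SSE.Lt := by
    rw [Forms, Submodule.span_le]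
    rintro x (hx | ⟨i, rfl⟩)
    · rw [Set.mem_singleton_iff] at hx
      rw [hx]
      exact Pool.Agent.H301R2.SSE.Lt_one
    · exact Pool.Agent.H301R2.SSE.Lt_log (halg i)
  refine (Pool.Agent.N770.finite_conics_logs (Forms l) hle h1).subset ?_
  rintro T ⟨u, hu, v, hv, hli, ⟨c, hc, hrel⟩, rfl⟩
  refine ⟨?_, u, v, hli, rfl, c, hc, ?_⟩
  · rw [Submodule.span_le]
    rintro x (rfl | rfl | hx)
    · exact h1
    · exact hu
    · rw [Set.mem_singleton_iff] at hx
      rw [hx]
      exact hv
  · rw [← hrel]
    have h : ∀ (a : algebraicClosure ℚ ℂ) (x : ℂ), a • x = (a : ℂ) * x := fun a x =>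
      Algebra.smul_def a x
    rw [h, h, h, h, h, h]
    ring

end Pool.Agent.Results.MP_60829e_nt.FinitelyManyQuadraticPlanes
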