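import Pool.Agent.N778.VarT

/-!
# Points with logarithmic coordinates on arbitrary varieties lie on translates of rational spaces, up to a set of bounded dimension

If logarithms of algebraic numbers which are linearly independent over `ℚ` are algebraically
independent, then a variety `V` in affine `m`-space defined over the field `ℚ̄` of algebraic numbers
contains a point `y` whose coordinates are linear forms in `1` and logarithms of algebraic numbers only
if it contains a translate `y + R_ℂ`, where `R` is a linear space defined over `ℚ̄` (the smallest one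
with `y - a ∈ R_ℂ` for an algebraic point `a`). We prove for ARBITRARY varieties that the points `y`
which are not on such translates are rare, unconditionally.

Let `K = ℚ` or `K = ℚ̄`, let `V_t`, `t` in `K ^ τ`, be a family of algebraic sets in `ℂ ^ m` (zeros of
polynomials `F_s (Y, t)` with arbitrary complex coefficients; `τ = 0` is the case of one algebraic set),
and let `ρ ≤ m`. Call a point `y` exceptional if it is on some `V_t` such that `V_t` contains no translate
`y + R_ℂ` with a linear space `R ⊆ K ^ m` of dimension greater than `ρ`.

* Dimension. Let `W` be a `K`-space of dimension `N` of linear forms in `1` and logarithms of algebraic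
  numbers with coefficients in `K`. The exceptional points of `W ^ m` lie in an algebraic subset, defined
  over `K`, of dimension at most `ρ N + (m - ρ) (m - 1) + τ`. (A set lies in an algebraic subset of
  dimension at most `d` if and only if any `d + 1` linear forms satisfy a nontrivial polynomial relation
  on it.)
* Counting. Let `l_1, ..., l_N` be `K`-linearly independent linear forms of this kind, for instance
  linearly independent logarithms of algebraic numbers. At most
  `κ H ^ (ρ N + (m - ρ) (m - 1) + τ)` of the integer `m × N` matrices `A` with entries of absolute value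
  at most `H` are such that `A l` is an exceptional point.
* Lower bound. If the algebraic set `V` contains a translate `A₀ l + R_ℂ`, where `A₀` is an integer
  matrix and `R` is a rational space, then at least `κ⁻¹ H ^ (N dim R)` of these matrices `A` are such
  that `A l` is in `V`.

For `ρ = 0` this says: outside of the union of the translates of linear spaces defined over `K` of
positive dimension which are contained in `V` there is only a set of points of dimension at most
`m (m - 1)`, and only `κ H ^ (m (m - 1))` points `A l`. This bound does not depend on `N` nor on the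
degree of `V`. All counterexamples to the question which come from `V` are among these points.
If `ρ` is the largest dimension of a rational space `R` such that `V` contains a translate
`A₀ l + R_ℂ`, then the number of the points `A l` on `V` is between `κ⁻¹ H ^ (ρ N)` and
`κ H ^ (ρ N + (m - ρ) (m - 1))`.

Known before (starting files): the case of the varieties of matrices of rank at most `r`
(`MP_1f047c_nt.RankStrata`), where the method of the proof comes from; and bounds with the dimension of
the space of the tangent vectors over `ℚ̄` at the point `y` in place of the translates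
(`MP_c82530_nt.PointsOnComplexVarieties`); a variety which contains no line at all may have many tangent
vectors over `ℚ̄` at a given point.

The proof (`Pool.Agent.Y787.AS`): if the theorem fails, there are a generic point `y` of a family over
an ultrapower and many derivations of the ultrapower of `ℂ` which vanish on the `l_j`. The hyperplane
case of the linear subgroup theorem of Waldschmidt and Roy is applied to all derivatives of the equations
at `y`, of all orders: the space of the directions `R` is cut down until no derivative gives a new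
condition, and then `y + R_ℂ` is contained in the variety.
-/

set_option autoImplicit false

open MvPolynomial

namespace Pool.Agent.Results.MP_60829e_nt.TranslatesInVarieties

/-- The linear forms in `1` and logarithms of algebraic numbers with coefficients in `K`. -/
noncomputable def LogForms (K : Type) [Field K] [Algebra K ℂ] : Submodule K ℂ :=
  Submodule.span K ({1} ∪ {z : ℂ | IsAlgebraic ℚ (Complex.exp z)})

/-- The translate `y + R_ℂ` is contained in the member with parameter `t` of the family given by the
equations `F`. -/
def TranslateIn (K : Type) [Field K] [Algebra K ℂ] {m τ r : ℕ}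
    (F : Fin r → MvPolynomial (Fin m ⊕ Fin τ) ℂ) (y : Fin m → ℂ) (t : Fin τ → K)
    (R : Submodule K (Fin m → K)) : Prop :=
  ∀ s, ∀ c ∈ Submodule.span ℂ {x : Fin m → ℂ | ∃ v ∈ R, x = fun i => algebraMap K ℂ (v i)},
    eval (Sum.elim (fun i => y i + c i) (fun a => algebraMap K ℂ (t a))) (F s) = 0

/-- For some parameter `t` over `K` the point `y` is on the member with parameter `t` of the family, and
this member contains no translate `y + R_ℂ` with `dim R > ρ`. -/
def Exceptional (K : Type) [Field K] [Algebra K ℂ] {m τ r : ℕ}
    (F : Fin r → MvPolynomial (Fin m ⊕ Fin τ) ℂ) (ρ : ℕ) (y : Fin m → ℂ) : Prop :=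
  ∃ t : Fin τ → K, (∀ s, eval (Sum.elim y (fun a => algebraMap K ℂ (t a))) (F s) = 0) ∧
    ∀ R : Submodule K (Fin m → K), TranslateIn K F y t R → Module.finrank K R ≤ ρ

/-- The bounds for the dimension and for the number of the exceptional points. -/
def UpperBounds (K : Type) [Field K] [Algebra K ℂ] : Prop :=
  ∀ (m τ r ρ : ℕ), ρ ≤ m → ∀ F : Fin r → MvPolynomial (Fin m ⊕ Fin τ) ℂ,
    (∀ (W : Submodule K ℂ) [FiniteDimensional K W], W ≤ LogForms K →
      ∀ φ : Fin (ρ * Module.finrank K W + (m - ρ) * (m - 1) + τ + 1) → ((Fin m → W) →ₗ[K] K),
      ∃ P : MvPolynomial (Fin (ρ * Module.finrank K W + (m - ρ) * (m - 1) + τ + 1)) K, P ≠ 0 ∧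
        ∀ y : Fin m → W, Exceptional K F ρ (fun i => (y i : ℂ)) → eval (fun i => φ i y) P = 0) ∧
    ∀ (N : ℕ) (l : Fin N → ℂ), (∀ j, l j ∈ LogForms K) → LinearIndependent K l →
      ∃ κ : ℕ, ∀ H : ℕ, 1 ≤ H →
        Set.ncard {A : Fin m → Fin N → ℤ | (∀ i j, |A i j| ≤ H) ∧
          Exceptional K F ρ (fun i => ∑ j, (A i j : ℂ) * l j)} ≤
        κ * H ^ (ρ * N + (m - ρ) * (m - 1) + τ)

theorem exc_of {K : Type} [Field K] [Algebra K ℂ] {m τ r : ℕ}
    {F : Fin r → MvPolynomial (Fin m ⊕ Fin τ) ℂ} {ρ : ℕ} {y : Fin m → ℂ}
    (h : Exceptional K F ρ y) : N778.VarT.Exc K F ρ y := by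
  obtain ⟨t, h1, h2⟩ := h
  refine ⟨t, h1, ?_⟩
  rintro ⟨R, h3, h4⟩
  exact absurd (h2 R h4) (by omega)

theorem upper_of {K : Type} [Field K] [CharZero K] [Countable K] [Algebra K ℂ]
    (hL : Pool.Agent.W254.PA.Hyp (LogForms K)) : UpperBounds K := by
  have := Pool.Agent.Y787.uncountable_complex
  intro m τ r ρ hρ F
  refine ⟨fun W _ hW φ => ?_, fun N l hl hli => ?_⟩
  · obtain ⟨P, h1, h2⟩ := N778.VarT.exc_dim hL Pool.Agent.Y787.AS.wts_pt W hW hρ F φ
    exact ⟨P, h1, fun y hy => h2 y (exc_of hy)⟩
  · obtain ⟨κ, hκ⟩ := N778.VarT.exc_count hL Pool.Agent.Y787.AS.wts_pt hρ l hl hli F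
    refine ⟨κ, fun H hH => le_trans (Set.ncard_le_ncard ?_ ?_) (hκ H hH)⟩
    · rintro A ⟨h1, h2⟩
      exact ⟨h1, exc_of h2⟩
    · exact Pool.Agent.Y787.AS.box_finite' H _

/-- **Main result.** -/
theorem result :
    UpperBounds ℚ ∧ UpperBounds (algebraicClosure ℚ ℂ) ∧
    ∀ (m τ r N : ℕ) (F : Fin r → MvPolynomial (Fin m ⊕ Fin τ) ℂ) (l : Fin N → ℂ)
      (A₀ : Fin m → Fin N → ℤ) (t : Fin τ → ℚ) (R : Submodule ℚ (Fin m → ℚ)),
      TranslateIn ℚ F (fun i => ∑ j, (A₀ i j : ℂ) * l j) t R →
      ∃ κ : ℕ, 1 ≤ κ ∧ ∀ H : ℕ, κ ≤ H → H ^ (Module.finrank ℚ R * N) ≤ κ *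
        Set.ncard {A : Fin m → Fin N → ℤ | (∀ i j, |A i j| ≤ H) ∧
          ∀ s, eval (Sum.elim (fun i => ∑ j, (A i j : ℂ) * l j)
            (fun a => algebraMap ℚ ℂ (t a))) (F s) = 0} := by
  refine ⟨upper_of Pool.Agent.Y787.AS.hypQ_complex, ?_, ?_⟩
  · have := N778.VarT.countable_QC (E := ℂ)
    exact upper_of Pool.Agent.Y787.hypC_complex.hyp
  · intro m τ r N F l A₀ t R hR
    exact N778.VarT.lower l F A₀ (fun a => algebraMap ℚ ℂ (t a)) R hR

end Pool.Agent.Results.MP_60829e_nt.TranslatesInVarieties
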